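import Pool.Agent.R437.Met.Cf
import Pool.Agent.Results.MP_ae0f86_nt.OneMotivesAndTowers

/-!
# The period conjecture for the members of families of 1-motives and iterated integrals near a given one

We use the families of the starting file `OneMotivesAndTowers`: a family `E_z : y² = 4 x³ - g₂(z) x - g₃(z)` of
elliptic curves whose invariants are algebraic functions of `z` and whose `j` is not constant, algebraic sections
`P_1, …, P_r` which are independent modulo torsion, and a tower of integrals `t_1, …, t_s` (integrals of algebraic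
functions on any curves, logarithms, multiple polylogarithms, …). Let `F` be a number field in `ℂ` and
`c_1, c_2, …` any complex numbers, for instance all the monomials in the periods of a given motive `M`. For all points
`ξ` outside a set of Hausdorff dimension at most `2 [F : ℚ] (n - 1) / τ` the `n`-tuples `x` of elements of `F` of
height at most `T`, `T` large, with `|ξ_j - x_j| ≤ C T ^ (-τ)` have the following property: the
`n (3 + 2 r + s + q)` periods `ω₁, ω₂, η₁`, `u_i`, `ζ(u_i)`, `t_k`, `log σ(∑ N_i u_i)` of the members at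
`x_1, …, x_n` of `n` such families satisfy no relation, not even an approximate one, of degree at most `d` whose
coefficients are linear combinations of `c_1, …, c_g` with coefficients in `F` of height at most `T ^ A`. For `n = 1`
the exceptional set has dimension zero, for every `τ > 0`. The starting file bounds the number of the exceptional
tuples by `C T ^ ε N(T) ^ (n - 1)`, `N(T)` being the number of elements of `F` of height at most `T` in a compact set.
-/

set_option autoImplicit false

open NumberField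

namespace Pool.Agent.Results.MP_ae0f86_nt.NearEveryPoint

open Pool.Agent.R437.Met
open OneMotivesAndTowers (Family periods)

/-- The elements of the number field `F` which are quotients of two integers of `F` all of whose conjugates have
absolute value at most `T`. -/
def Points (F : Type) [Field F] [NumberField F] (T : ℝ) : Set F :=
  {x | ∃ a b : 𝓞 F, b ≠ 0 ∧ (∀ φ : F →+* ℂ, ‖φ a‖ ≤ T ∧ ‖φ b‖ ≤ T) ∧ x = a / b}

/-- There is a polynomial `P` of degree at most `d` in each variable, with coefficients of the form `∑ c_i ι(a_i)`,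
where the `a_i` are integers of `F` all of whose conjugates have absolute value at most `T ^ A`, such that the value
of `P` at the numbers `v j (ι (x j)) i` is at most `T ^ (-B)` times the absolute value of some nonzero coefficient of
`P`. -/
def Related {n g : ℕ} {J : Type} (v : Fin n → ℂ → J → ℂ) (F : Type) [Field F] [NumberField F]
    (ι : F →+* ℂ) (c : Fin g → ℂ) (d : ℕ) (A B T : ℝ) (x : Fin n → F) : Prop :=
  ∃ P : MvPolynomial (Fin n × J) ℂ, (∀ y, P.degreeOf y ≤ d) ∧
    (∀ s, ∃ a : Fin g → 𝓞 F, (∀ i (φ : F →+* ℂ), ‖φ (a i)‖ ≤ T ^ A) ∧ P.coeff s = ∑ i, c i * ι (a i)) ∧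
    ∃ s₀, P.coeff s₀ ≠ 0 ∧
      ‖MvPolynomial.aeval (fun y : Fin n × J => v y.1 (ι (x y.1)) y.2) P‖ ≤ T ^ (-B) * ‖P.coeff s₀‖

/-- **Periods near a given point.** For `n ≥ 1` families over `U_1, …, U_n` (equal or different), a number field `F`
with an embedding `ι` in `ℂ`, a sequence `c` of complex numbers and every `τ > 0` there is a set `E` of Hausdorff
dimension at most `2 [F : ℚ] (n - 1) / τ` such that for all `ξ` outside `E` with `ξ_1, …, ξ_n` in the intersection of
the `U_j` and all `g`, `d`, `A` there is `B` such that for all `C` and all large `T`: for the `n`-tuples `x` of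
elements of `F` of height at most `T` with `|ξ_j - ι(x_j)| ≤ C T ^ (-τ)` for all `j` the periods `periods` of the
families at the points `x_1, …, x_n` satisfy no relation (in the sense of `Related`) with coefficients that are linear
combinations of the first `g` of the numbers `c`. -/
theorem result {n r s q : ℕ} (hn : 1 ≤ n) (U : Fin n → Set ℂ) (Λ : Fin n → ℂ → PeriodPair)
    (u : Fin n → Fin r → ℂ → ℂ) (t : Fin n → Fin s → ℂ → ℂ) (N : Fin n → Fin q → Fin r → ℤ)
    (S : Fin n → Fin q → ℂ → ℂ) (hU : ∀ j, Family (U j) (Λ j) (u j) (t j) (N j) (S j))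
    (F : Type) [Field F] [NumberField F] (ι : F →+* ℂ) (c : ℕ → ℂ) (τ : ℝ) (hτ : 0 < τ) :
    ∃ E : Set (Fin n → ℂ), dimH E ≤ ENNReal.ofReal (2 * (Module.finrank ℚ F : ℝ) * ((n : ℝ) - 1) / τ) ∧
      ∀ ξ : Fin n → ℂ, (∀ j i, ξ j ∈ U i) → ξ ∉ E → ∀ (g d : ℕ) (A : ℝ), ∃ B : ℝ, ∀ C : ℝ, ∃ T₁ : ℝ,
        ∀ T : ℝ, T₁ ≤ T → ∀ x : Fin n → F,
          (∀ j, x j ∈ Points F T ∧ ‖ξ j - ι (x j)‖ ≤ C * T ^ (-τ)) →
            ¬ Related (fun j => periods (Λ j) (u j) (t j) (S j)) F ι (fun i : Fin g => c i) d A B T x := by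
  obtain ⟨E, hE, h⟩ := Cf.near n hn F (fun (x : Fin n → F) (y : Fin n ×
      (Fin 3 ⊕ (Fin r ⊕ (Fin r ⊕ (Fin s ⊕ Fin q))))) =>
      periods (Λ y.1) (u y.1) (t y.1) (S y.1) (ι (x y.1)) y.2) ι c
    (fun _ => ⋂ i, U i) (fun _ => isOpen_iInter_of_finite fun i => (hU i).isOpen)
    (by
      intro K hK hKS g d A ε hε
      have hK' : IsCompact (⋃ j, K j) := isCompact_iUnion hK
      have hKU : ∀ j, (⋃ j, K j) ⊆ U j := fun j => Set.iUnion_subset fun i =>
        (hKS i).trans (Set.iInter_subset _ j)
      obtain ⟨B, C, T₀, h⟩ := OneMotivesAndTowers.result U Λ u t N S hU (⋃ j, K j) hK' hKU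
        (Module.finrank ℚ F) g d A ε hε
      refine ⟨B, C, T₀, ⋃ j, K j, fun T hT => ?_⟩
      obtain ⟨h1, h2⟩ := h F le_rfl ι (fun i : Fin g => c i) T hT
      have hsub : {x : Fin n → F | (∀ j, ι (x j) ∈ K j ∧ Hs.IsPt F T (x j)) ∧
          Cf.Rel F (fun (x : Fin n → F) (y : Fin n × (Fin 3 ⊕ (Fin r ⊕ (Fin r ⊕ (Fin s ⊕ Fin q))))) =>
            periods (Λ y.1) (u y.1) (t y.1) (S y.1) (ι (x y.1)) y.2) ι
            (fun i : Fin g => c i) d A B T x} ⊆
          OneMotivesAndTowers.Exceptional n d (fun j => periods (Λ j) (u j) (t j) (S j)) F ι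
            (fun i : Fin g => c i) (⋃ j, K j) A B T := by
        rintro x ⟨h3, h4⟩
        exact ⟨fun j => ⟨Set.mem_iUnion.2 ⟨j, (h3 j).1⟩, (h3 j).2⟩, h4⟩
      refine ⟨h1.subset hsub, le_trans ?_ h2⟩
      exact_mod_cast Set.ncard_le_ncard hsub h1)
    τ hτ
  exact ⟨E, hE, fun ξ hξ hξE g d A => h ξ (fun j => Set.mem_iInter.2 (hξ j)) hξE g d A⟩

end Pool.Agent.Results.MP_ae0f86_nt.NearEveryPoint
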